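import Pool.Agent.Helper98.NG.McKay
import Pool.Graph.R_pool_sql_team_seeded_ab47071d.Results.MP_5ecade_al.OneClassSuffices

/-!
# McKay bijections with degrees congruent up to sign: the number of exceptional groups

For a finite group `G`, a prime `p` and a class `k ≠ 0` modulo `p` let `cnt p k G` be the number of irreducible
complex characters of `G` with degree congruent to `k` or `-k` modulo `p`. Call `G` an exception for `k`, if
`cnt p k G ≠ cnt p k N_G(P)`, `P` a Sylow `p`-subgroup. Let `δ > 0` and
`f(N) = N ^ ((2 / 27 - δ) (log_p N) ^ 2)`. `MoreThan P N x` (`Pool.Agent.Helper98.NG`) says that more than `x`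
finite groups of order at most `N`, up to isomorphism, have the property `P`.

We show: if the answer to the question for the prime `p` is no, then for every `k ≠ 0` and all large `N` more
than `f(N)` groups of order at most `N` are exceptions for `k`. So the answer is yes if and only if there is a
`k ≠ 0` such that, for arbitrarily large `N`, at most `f(N)` groups of order at most `N` are exceptions for `k`.
The number of all groups of order at most `N` is `N ^ ((2 / 27 + o(1)) (log₂ N) ^ 2)` (Higman, Sims,
Pyber), so this allows the number of exceptions to be a power, with an exponent which depends on `p` only,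
of the number of all groups.

Proof: if `A` is a group of order a power of `p` and class two, with commutators of order `p`, then the
characters of `A` of degree prime to `p` are linear (the commutators act as scalars with determinant one), and
`cnt p k (G × A) = cnt p k G · |A / A'|`; the same holds for the normaliser of `P × A`, that is
`N_G(P) × A`. We take for `A` the central extensions of `(ℤ/p)^(2m)` by `(ℤ/p)^m`. One class `k` is enough by the
theorem `OneClassSuffices` of this folder.
-/

set_option autoImplicit false

open Filter

namespace Pool.Agent.Results.MP_5ecade_al.ExceptionalGroups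

open Pool.Agent.Helper98.NG Pool.Agent.Results.MP_5ecade_al.OneClassSuffices

/-- `G` is an exception for the class `k` -/
def Exceptional (p : ℕ) (k : ZMod p) (G : Type) [Group G] : Prop :=
  ∃ P : Sylow p G, cnt p k G ≠ cnt p k (Nor P)

lemma prod {p : ℕ} [Fact p.Prime] {k : ZMod p} (hk : k ≠ 0) {G : Type} [Group G] [Finite G]
    (h : Exceptional p k G) (A : Type) [Group A] [Finite A] (hA : IsPGroup p A) (hS : Special p A) :
    Exceptional p k (G × A) := by
  obtain ⟨P, hP⟩ := h
  by_contra hcon
  refine hP (cnt_of_prod hA hS hk (fun R => ?_) P)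
  by_contra h1
  exact hcon ⟨R, h1⟩

/-- **McKay bijections with degrees congruent up to sign and the number of exceptional groups.** Let `p` be a
prime and `δ > 0`.
(1) If the answer to the question for the prime `p` is no, then for every `k ≠ 0` and all large `N` there are
more than `N ^ ((2 / 27 - δ) (log_p N) ^ 2)` groups of order at most `N`, up to isomorphism, which are exceptions
for `k`.
(2) The answer is yes if and only if there is a `k ≠ 0` such that for arbitrarily large `N` at most
`N ^ ((2 / 27 - δ) (log_p N) ^ 2)` groups of order at most `N` are exceptions for `k`. -/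
theorem result (p : ℕ) [hp : Fact p.Prime] (δ : ℝ) (hδ : 0 < δ) :
    (¬ Question p → ∀ k : ZMod p, k ≠ 0 → ∀ᶠ N : ℕ in atTop,
      MoreThan (fun G _ => Exceptional p k G) N ((N : ℝ) ^ ((2 / 27 - δ) * Real.logb p N ^ 2))) ∧
    (Question p ↔ ∃ k : ZMod p, k ≠ 0 ∧ ∃ᶠ N : ℕ in atTop,
      ¬ MoreThan (fun G _ => Exceptional p k G) N ((N : ℝ) ^ ((2 / 27 - δ) * Real.logb p N ^ 2))) := by
  have h1 : ¬ Question p → ∀ k : ZMod p, k ≠ 0 → ∀ᶠ N : ℕ in atTop,
      MoreThan (fun G _ => Exceptional p k G) N ((N : ℝ) ^ ((2 / 27 - δ) * Real.logb p N ^ 2)) := by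
    intro h k hk
    have h2 := ((Pool.Agent.Results.MP_5ecade_al.OneClassSuffices.result p k hk).out 0 1)
    have h3 : ¬ ∀ (G : Type) [Group G] [Finite G] (P : Sylow p G), cnt p k G = cnt p k (Nor P) :=
      fun h4 => h (h2.mpr h4)
    simp only [not_forall] at h3
    obtain ⟨G, _, _, P, hP⟩ := h3
    exact moreThan' (P := fun G _ => Exceptional p k G) hp.out hδ (G := G)
      fun A _ _ hA hS => prod hk ⟨P, hP⟩ A hA hS
  refine ⟨h1, fun h => ⟨1, one_ne_zero, ?_⟩, ?_⟩
  · have h2 := ((Pool.Agent.Results.MP_5ecade_al.OneClassSuffices.result p 1 one_ne_zero).out 0 1).mp h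
    refine Eventually.frequently (Eventually.of_forall fun N => ?_)
    rintro ⟨n, F, hF, h3, h4, -⟩
    have h5 : 0 < n := by
      have h6 : (0 : ℝ) ≤ (N : ℝ) ^ ((2 / 27 - δ) * Real.logb p N ^ 2) :=
        Real.rpow_nonneg (Nat.cast_nonneg _) _
      exact_mod_cast h6.trans_lt h3
    obtain ⟨h6, -, P, hP⟩ := h4 ⟨0, h5⟩
    exact hP (h2 _ P)
  · rintro ⟨k, hk, h2⟩
    by_contra hcon
    exact h2 ((h1 hcon k hk).mono fun N hN h3 => h3 hN)

end Pool.Agent.Results.MP_5ecade_al.ExceptionalGroups
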