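import Pool.Agent.Helper92.MK.Nil
import Pool.Agent.Helper98.NG.Exc
import Pool.Graph.R_pool_sql_team_seeded_5cf16337.Results.MP_5ecade_al.OneCongruence

/-!
# McKay bijections with degrees congruent up to sign modulo `p`: cancellation of direct factors, and the
number of exceptional groups

Let `p` be a prime. `Q1 p G` says that for every Sylow `p`-subgroup `P` of the finite group `G` there is a
bijection `Irr_{p'}(G) → Irr_{p'}(N_G(P))` with degrees congruent up to sign modulo `p`.

(1) Let `B` be nilpotent and `C` of odd order, both of order prime to `p`. The bijection exists for `G × B × C` if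
and only if it exists for `G`.
(2) Let `ℓ ≠ p` be a prime and `𝒢` a class of finite groups closed under direct products with `ℓ`-groups (for
instance all finite groups, or those with Sylow `p`-subgroups isomorphic to a given group). If `Q1` fails for
one group in `𝒢`, then for all large `N` it fails for more than `N ^ ((2 / 27 - ε) (log_ℓ N) ^ 2)` groups in `𝒢`
of order at most `N`, up to isomorphism. For `p` odd and `ℓ = 2` this is the number of all groups of order at
most `N`, up to a factor `N ^ (-ε' (log₂ N) ^ 2)` (Higman, Sims, Pyber).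

Proof. (1) Let `m(G) = ∑ [χ(1) ^ 2]` in the group ring of `(ℤ/p)ˣ`, and `D(G) = m(G) - m(N_G(P))`, so that
the bijection exists if and only if `D(G) = 0`. Then `D(G × A) = D(G) m(A)`, `m(A × A') = m(A) m(A')`, and we
have to see that `m(A)` is not a zero divisor for `ℓ`-groups `A` and for groups of odd order.
* Let `A` be an `ℓ`-group and `u = [ℓ ^ 2]`. The degrees of `A` are powers of `ℓ` and the sum of their squares
  is `|A|`, so `m(A)` is congruent to `|A|` modulo `u - ℓ ^ 2`, and `0` is congruent to `ℓ ^ (2 (p - 1)) - 1`;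
  hence `m(A)` and `u - ℓ ^ 2` generate the unit ideal. So if `D m(A) = 0`, then `D = (ℓ ^ 2 - u) E` with
  `E m(A) = 0`, and the sum of the absolute values of the coefficients of `E` is at most the sum for `D` divided
  by `ℓ ^ 2 - 1`. By descent `D = 0`.
* If `A` has odd order, the nontrivial irreducible characters form pairs of conjugate ones (Burnside), so `m(A)`
  is congruent to `1` modulo `2`.
(2) follows from (1) and Higman's lower bound for the number of `ℓ`-groups `A`, redone for the groups `G × A`.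
-/

set_option autoImplicit false

open Filter

noncomputable section

namespace Pool.Agent.Results.MP_5ecade_al.NilpotentFactors

open Pool.Agent.Helper98.NG (MoreThan)

/-- `χ` is the character of an irreducible complex representation of `G`. -/
def IsIrr {G : Type} [Group G] (χ : G → ℂ) : Prop :=
  ∃ (V : Type) (_ : AddCommGroup V) (_ : Module ℂ V) (_ : FiniteDimensional ℂ V)
    (ρ : Representation ℂ G V), ρ.IsIrreducible ∧ χ = ρ.character

/-- The set `Irr_{p'}(G)` of the irreducible characters of `G` of degree prime to `p`. -/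
def IrrP (p : ℕ) (G : Type) [Group G] : Type :=
  {χ : G → ℂ // IsIrr χ ∧ ∃ d : ℕ, χ 1 = (d : ℂ) ∧ ¬ p ∣ d}

/-- The bijection of Q1 for `G` and `P`: from `Irr_{p'}(G)` onto `Irr_{p'}(N_G(P))` with degrees congruent
up to sign modulo `p`. -/
def HasBijection {p : ℕ} {G : Type} [Group G] (P : Sylow p G) : Prop :=
  ∃ e : IrrP p G ≃ IrrP p (Subgroup.normalizer ((P : Subgroup G) : Set G)),
    ∀ (χ : IrrP p G) (m n : ℕ), χ.1 1 = (m : ℂ) → (e χ).1 1 = (n : ℂ) →
      (m : ℤ) ≡ n [ZMOD p] ∨ (m : ℤ) ≡ -n [ZMOD p]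

/-- Q1 for the prime `p` and the group `G`. -/
def Q1 (p : ℕ) (G : Type) [Group G] : Prop := ∀ P : Sylow p G, HasBijection P

/-- A class of groups closed under direct products with finite `ℓ`-groups. -/
def Closed (ℓ : ℕ) (𝒢 : ∀ (G : Type) [Group G], Prop) : Prop :=
  ∀ (G A : Type) [Group G] [Finite G] [Group A] [Finite A], IsPGroup ℓ A → 𝒢 G → 𝒢 (G × A)

theorem hasBijection_iff {p : ℕ} [Fact p.Prime] {G : Type} [Group G] [Finite G] (P : Sylow p G) :
    HasBijection P ↔ Pool.Agent.K3h3.MK.wt (Pool.Agent.K3h3.MK.cl p) G =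
      Pool.Agent.K3h3.MK.wt (Pool.Agent.K3h3.MK.cl p) (Pool.Agent.K3h3.MK.NN P) :=
  OneCongruence.hasBijection_iff P

/-- **Cancellation of direct factors, and the number of the groups without a McKay bijection with degrees
congruent up to sign.** Let `p` be a prime.
(1) Let `G`, `B`, `C` be finite groups, `B` nilpotent, `C` of odd order, both of order prime to `p`. Then
Q1 holds for `G × (B × C)` and a Sylow `p`-subgroup of it if and only if it holds for `G` and a Sylow
`p`-subgroup of `G`.
(2) Let `ℓ ≠ p` be a prime (for example `ℓ = 2` if `p` is odd), `𝒢` a class of finite groups closed under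
direct products with `ℓ`-groups, and `ε > 0`. If Q1 is false for some group in `𝒢`, then for all large `N` it
is false for more than `N ^ ((2 / 27 - ε) (log_ℓ N) ^ 2)` groups in `𝒢` of order at most `N`, up to
isomorphism. So Q1 is true for all groups in `𝒢` if and only if there are arbitrarily large `N` for which
this is not the case. -/
theorem result (p : ℕ) [Fact p.Prime] :
    (∀ (G B C : Type) [Group G] [Finite G] [Group B] [Finite B] [Group C] [Finite C],
      Group.IsNilpotent B → Odd (Nat.card C) → ¬ p ∣ Nat.card B → ¬ p ∣ Nat.card C →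
      ∀ (P : Sylow p G) (R : Sylow p (G × (B × C))), HasBijection R ↔ HasBijection P) ∧
    ∀ ℓ : ℕ, ℓ.Prime → ℓ ≠ p → ∀ 𝒢 : ∀ (G : Type) [Group G], Prop, Closed ℓ 𝒢 →
      ∀ ε : ℝ, 0 < ε →
      ((∃ (G : Type) (_ : Group G), Finite G ∧ 𝒢 G ∧ ¬ Q1 p G) → ∀ᶠ N : ℕ in atTop,
        MoreThan (fun G _ => 𝒢 G ∧ ¬ Q1 p G) N ((N : ℝ) ^ ((2 / 27 - ε) * Real.logb ℓ N ^ 2))) ∧
      ((∀ (G : Type) [Group G] [Finite G], 𝒢 G → Q1 p G) ↔ ∃ᶠ N : ℕ in atTop,
        ¬ MoreThan (fun G _ => 𝒢 G ∧ ¬ Q1 p G) N
          ((N : ℝ) ^ ((2 / 27 - ε) * Real.logb ℓ N ^ 2))) := by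
  refine ⟨?_, ?_⟩
  · intro G B C _ _ _ _ _ _ hB hC hBp hCp P R
    rw [hasBijection_iff, hasBijection_iff]
    refine Pool.Agent.Helper92.MK.wt_iff_of_reg p (Pool.Agent.Helper92.MK.reg_prod p
      (Pool.Agent.Helper92.MK.reg_nilpotent p hB hBp) (Pool.Agent.Helper92.MK.reg_odd p hC)) ?_ P R
    rw [Nat.card_prod]
    intro h
    rcases (Fact.out : p.Prime).dvd_mul.mp h with h | h
    · exact hBp h
    · exact hCp h
  intro ℓ hℓ hne 𝒢 h𝒢 ε hε
  have h1 : ∀ (G A : Type) [Group G] [Finite G] [Group A] [Finite A], IsPGroup ℓ A →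
      ∀ (P : Sylow p G) (R : Sylow p (G × A)), HasBijection R ↔ HasBijection P := by
    intro G A _ _ _ _ hA P R
    rw [hasBijection_iff, hasBijection_iff]
    exact Pool.Agent.Helper92.MK.wt_iff p hℓ hne hA P R
  have h2 : ∀ (G A : Type) [Group G] [Finite G] [Group A] [Finite A], IsPGroup ℓ A →
      (𝒢 (G × A) → Q1 p (G × A)) → 𝒢 G → Q1 p G := by
    intro G A _ _ _ _ hA h hG P
    have h3 := h (h𝒢 G A hA hG)
    exact (h1 G A hA P (default : Sylow p (G × A))).mp (h3 _)
  have h4 : ∀ (G : Type) [Group G], ¬ (𝒢 G → Q1 p G) ↔ (𝒢 G ∧ ¬ Q1 p G) := fun G _ => by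
    rw [Classical.not_imp]
  constructor
  · rintro ⟨G, _, _, hG, hG'⟩
    refine Pool.Agent.Helper98.NG.moreThan (P := fun G _ => 𝒢 G ∧ ¬ Q1 p G) hℓ hε (G := G) ?_
    intro A _ _ hA
    exact ⟨h𝒢 G A hA hG, fun h => hG' (h2 G A hA (fun _ => h) hG)⟩
  · have h5 := Pool.Agent.Helper98.NG.iff_few (P := fun G _ => 𝒢 G → Q1 p G) hℓ hε h2
    simp only [h4] at h5
    exact h5

end Pool.Agent.Results.MP_5ecade_al.NilpotentFactors
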